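import Mathlib

/-!
# Middle coefficients in linear combinations of an ultrafilter

Negative answer.  Let `U` be a (necessarily nonprincipal) additive idempotent of `βℕ`, where
`ℕ = {1, 2, 3, …}` is the type `ℕ+`.  Then for all positive integers `a`, `c`
`aU ⊕ aU ⊕ cU = a(U ⊕ U) ⊕ cU = aU ⊕ cU = aU ⊕ c(U ⊕ U) = aU ⊕ cU ⊕ cU`,
so for `a ≠ c` the middle coefficients `b = a` and `b' = c` are different but give equal sums.
-/

namespace Pool.Agent.Results.MP_f00063_lc.MiddleCoefficient

/-- The sum of two ultrafilters on `{1, 2, 3, …}`: `A ∈ U ⊕ V` if and only if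
`{m : {n : m + n ∈ A} ∈ V} ∈ U`. -/
def usum (U V : Ultrafilter ℕ+) : Ultrafilter ℕ+ :=
  Ultrafilter.bind U (fun m => Ultrafilter.map (fun n => m + n) V)

/-- The multiple `a U`: the image of `U` under `n ↦ a n`. -/
def smul (a : ℕ+) (U : Ultrafilter ℕ+) : Ultrafilter ℕ+ :=
  Ultrafilter.map (fun n => a * n) U

theorem mem_usum (U V : Ultrafilter ℕ+) (A : Set ℕ+) :
    A ∈ usum U V ↔ {m : ℕ+ | {n : ℕ+ | m + n ∈ A} ∈ V} ∈ U :=
  Iff.rfl

theorem mem_smul (a : ℕ+) (U : Ultrafilter ℕ+) (A : Set ℕ+) :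
    A ∈ smul a U ↔ {n : ℕ+ | a * n ∈ A} ∈ U :=
  Iff.rfl

theorem usum_assoc (U V W : Ultrafilter ℕ+) :
    usum (usum U V) W = usum U (usum V W) := by
  apply Ultrafilter.ext
  intro A
  simp only [mem_usum, Set.mem_ofPred_eq, add_assoc]

theorem smul_usum (a : ℕ+) (U V : Ultrafilter ℕ+) :
    smul a (usum U V) = usum (smul a U) (smul a V) := by
  apply Ultrafilter.ext
  intro A
  simp only [mem_usum, mem_smul, Set.mem_ofPred_eq, mul_add]

attribute [local instance] Ultrafilter.add Ultrafilter.addSemigroup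

theorem exists_idem : ∃ U : Ultrafilter ℕ+, usum U U = U := by
  obtain ⟨U, hU⟩ := exists_idempotent_of_compact_t2_of_continuous_add_left
    (M := Ultrafilter ℕ+) Ultrafilter.continuous_add_left
  refine ⟨U, ?_⟩
  apply Ultrafilter.ext
  intro A
  rw [mem_usum]
  have h := Ultrafilter.eventually_add U U (fun m => m ∈ A)
  rw [hU] at h
  exact h.symm

/-- **Answer to Q1 (disproof).**  There is one nonprincipal ultrafilter `U` on `{1, 2, 3, …}` such
that for all positive integers `a ≠ c` there are positive integers `b ≠ b'` with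
`aU ⊕ bU ⊕ cU = aU ⊕ b'U ⊕ cU` (both bracketings are covered, as `⊕` is associative). -/
theorem result :
    ∃ U : Ultrafilter ℕ+, (∀ n : ℕ+, U ≠ pure n) ∧
      ∀ a c : ℕ+, a ≠ c → ∃ b b' : ℕ+, b ≠ b' ∧
        usum (usum (smul a U) (smul b U)) (smul c U) =
          usum (usum (smul a U) (smul b' U)) (smul c U) ∧
        usum (smul a U) (usum (smul b U) (smul c U)) =
          usum (smul a U) (usum (smul b' U) (smul c U)) := by
  obtain ⟨U, hU⟩ := exists_idem
  refine ⟨U, ?_, ?_⟩
  · intro n hn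
    have h1 : ({n} : Set ℕ+) ∈ usum U U := by
      rw [hU, hn]
      exact Ultrafilter.mem_pure.2 rfl
    rw [mem_usum, hn] at h1
    have h2 : n ∈ {m : ℕ+ | {k : ℕ+ | m + k ∈ ({n} : Set ℕ+)} ∈ (pure n : Ultrafilter ℕ+)} :=
      Ultrafilter.mem_pure.1 h1
    have h3 : n ∈ {k : ℕ+ | n + k ∈ ({n} : Set ℕ+)} := Ultrafilter.mem_pure.1 h2
    have h4 : n + n = n := h3
    have h5 : (n : ℕ) + n = n := by exact_mod_cast h4
    have h6 := n.pos
    omega
  · intro a c hac
    have h1 : usum (usum (smul a U) (smul a U)) (smul c U) =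
        usum (usum (smul a U) (smul c U)) (smul c U) := by
      rw [usum_assoc (smul a U) (smul c U), ← smul_usum, ← smul_usum, hU]
    refine ⟨a, c, hac, h1, ?_⟩
    rw [← usum_assoc, ← usum_assoc]
    exact h1

end Pool.Agent.Results.MP_f00063_lc.MiddleCoefficient
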